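import Pool.Agent.V5helper82.DC.Equiv

/-!
The nef cone conjecture and groups of automorphisms which divide an open convex cone.
-/

set_option autoImplicit false

open FF Pool.Agent.W602.GT Pool.Agent.Y172 Pool.Agent.R887 Pool.Agent.N110 Pool.Agent.N110.CC
open Pool.Agent.V5helper82.DC

/-- Let `X` be a normal projective variety of dimension `n ≥ 1`, with generic point `y`. Let the
vectors `c P` be the classes of the prime divisors in `N¹(X) = ℤ ^ (r + 1)`, `r ≥ 0` (if `X` is
`ℚ`-factorial then `r + 1` is the Picard number of `X`). Let `Δ` be a divisor on `X`, for instance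
`Δ = 0`.

(1) Let `Γ` be a group of automorphisms of `X` which preserve `Δ`. Suppose that `Γ` divides some open
convex cone `C` in `N¹(X) ⊗ ℝ`: the closure of `C` contains no line, `Γ` preserves `C`, and the
quotient of the set of the rays in `C` by `Γ` is compact. Suppose that the class of some effective
divisor is in `C`. Then `C` is the interior of the effective cone, its closure is the nef cone and
the movable cone, all nonzero effective classes and all nonzero integral nef classes are in `C` (so
they are ample classes), and the nef cone conjecture holds for `(X, Δ)`: the action of the group of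
all automorphisms of `X` which preserve `Δ` on the cone `Nef(X) ∩ Eff(X)` has a rational polyhedral
fundamental domain.

(2) A local criterion for this: let `Γ` be a group of automorphisms of `X` which preserve `Δ`, and
let `Q` be a nonempty compact set of big classes, for instance the convex hull of finitely many ones.
Suppose that all elements of `Q` are interior points of the union of the positive multiples of the
images of `Q` under `Γ`. Then `Γ` divides the cone of the big classes.

(3) The following are equivalent: the group of all automorphisms of `X` which preserve `Δ` divides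
some open convex cone which contains the class of an effective divisor; the nef cone conjecture holds
for `(X, Δ)` and all nonzero classes in `Nef(X) ∩ Eff(X)` are ample (in the interior of the nef
cone). In this case all effective classes are nef, by (1). -/
theorem Pool.Agent.Results.MP_20d318_ag.DivisibleNefCones.result
    {K : Type} [Field K] [Algebra ℂ K] {N n r : ℕ} {y : Fin (N + 1) → K} (hy : NormalModel y)
    (hn : Algebra.trdeg ℂ K = n) (hn0 : 0 < n)
    {c : Place ℂ K → Fin (r + 1) → ℤ} (hc : PicardBasis y c) (Δ : Place ℂ K → ℝ) :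
    (∀ Γ : Subgroup (K ≃ₐ[ℂ] K), (∀ φ ∈ Γ, IsAut φ y ∧ Preserves φ y Δ) →
      ∀ C, Divides {T | ∃ ψ ∈ Γ, IsPullBack y c ψ T} C → (C ∩ effCone y c).Nonempty →
        C = interior (effCone y c) ∧ closure C = nefCone y n c ∧ closure C = movCone y c ∧
        (∀ x ∈ effCone y c, x ≠ 0 → x ∈ C) ∧
        (∀ x ∈ nefCone y n c, (∀ i, ∃ m : ℤ, x i = m) → x ≠ 0 → x ∈ C) ∧
        HasFundDomain {T | ∃ ψ, IsAut ψ y ∧ Preserves ψ y Δ ∧ IsPullBack y c ψ T}
          (nefCone y n c ∩ effCone y c)) ∧
    (∀ Γ : Subgroup (K ≃ₐ[ℂ] K), (∀ φ ∈ Γ, IsAut φ y ∧ Preserves φ y Δ) →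
      ∀ Q : Set (Fin (r + 1) → ℝ), IsCompact Q → Q.Nonempty → Q ⊆ interior (effCone y c) →
      (∀ q ∈ Q, q ∈ interior {x | ∃ T ∈ {T | ∃ ψ ∈ Γ, IsPullBack y c ψ T},
        ∃ t : ℝ, 0 < t ∧ t • T x ∈ Q}) →
      Divides {T | ∃ ψ ∈ Γ, IsPullBack y c ψ T} (interior (effCone y c))) ∧
    ((∃ C, Divides {T | ∃ ψ, IsAut ψ y ∧ Preserves ψ y Δ ∧ IsPullBack y c ψ T} C ∧
        (C ∩ effCone y c).Nonempty) ↔
      HasFundDomain {T | ∃ ψ, IsAut ψ y ∧ Preserves ψ y Δ ∧ IsPullBack y c ψ T}
        (nefCone y n c ∩ effCone y c) ∧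
      ∀ x ∈ nefCone y n c ∩ effCone y c, x ≠ 0 → x ∈ interior (nefCone y n c)) := by
  refine ⟨fun Γ hΓ C hC heff => div_nef hy hn hn0 hc hΓ hC heff,
    fun Γ hΓ Q hQ hne hQC hloc => div_loc hy hc (fun φ hφ => isAut_ps hy (hΓ φ hφ).1) hQ hQC hne
      hloc, fun ⟨C, hC, heff⟩ => ?_, fun ⟨h1, h2⟩ => nef_div hy hn hn0 hc h1 h2⟩
  rw [← set_nef hy] at hC
  obtain ⟨h1, h2, -, h3, -, h5⟩ := div_nef hy hn hn0 hc
    (Γ := presGroup y (autGroup y) (fun _ h => isAut_ps hy h) Δ) (fun φ hφ => hφ) hC heff
  refine ⟨h5, fun x hx hx0 => ?_⟩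
  rw [← h2]
  exact interior_maximal subset_closure hC.isOpen (h3 x hx.2 hx0)
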