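import Pool.Agent.V5helper91.FC.Geo

/-!
The nef cone conjecture is equivalent to a condition in codimension one.
-/

set_option autoImplicit false

open FF Pool.Agent.W602.GT Pool.Agent.Y172 Pool.Agent.R887 Pool.Agent.N110 Pool.Agent.N110.CC
open Pool.Agent.V5helper91.FC
open Pool.Agent.Y167 (cone)

/-- Let `X` be a normal projective variety of dimension `n ≥ 1`, with generic point `y`. Let the
vectors `c P` be the classes of the prime divisors in `N¹(X) = ℤ ^ (r + 1)`, `r ≥ 0` (if `X` is
`ℚ`-factorial then `r + 1` is the Picard number of `X`). Let `Δ` be a divisor on `X`, for instance
`Δ = 0`. Let `Nef(X)` be the closed cone spanned by the classes of the base point free divisors, and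
call the classes in its interior ample.

A finite family `𝒬` of rational polyhedral cones in `Nef(X) ∩ Eff(X)`, one of which has interior
points, closes up across the facets with respect to a group `G` of automorphisms of `N¹(X)` if for
each cone `Π` of the family and each ample point `p` in the relative interior of a facet of `Π`, some
`G`-image of a cone of the family contains `p` and also points on the other side of the hyperplane
spanned by the facet. (Nothing is assumed on the faces of codimension two or more, on the facets in
the boundary of `Nef(X)`, or on the overlap of the images, which can be arbitrary; the images through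
the points of one facet can be different ones.)

(1) There are ample classes (which is always so if `X` is `ℚ`-factorial) and the nef cone conjecture
holds for `(X, Δ)`, that is the group of all automorphisms of `X` which preserve `Δ` has a rational
polyhedral fundamental domain on `Nef(X) ∩ Eff(X)`, if and only if some finite family closes up
across the facets with respect to this group.

(2) Let `Γ` be any group of automorphisms of `X` which preserve `Δ`, and let `𝒬` be a family which
closes up across the facets with respect to `Γ`. Then the images of the cones of the family under `Γ`
cover `Nef(X) ∩ Eff(X)`, all classes in the boundary of `Nef(X)` included, and the image of `Γ` in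
the automorphism group of `N¹(X)` has finite index in the image of the group of all automorphisms
which preserve `Δ`.

(3) Let `Γ` be any group of automorphisms of `X` which preserve `Δ`, and let `Π` be a rational
polyhedral cone in `Nef(X) ∩ Eff(X)` with interior points such that each facet of `Π` which contains
ample classes in its relative interior is fixed pointwise by some element of `Γ` which does not act
trivially on `N¹(X)`. Then the family `{Π}` closes up across the facets with respect to `Γ`.

Proof. The images of the family under a group of automorphisms are generated by integral effective
classes, and a linear form which is positive on the nonzero classes of the closed effective cone takes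
bounded values at the summands of a bounded effective class; so the images are locally finite in the
ample cone, and their union is closed there. If an ample class `x` is not in the union, then a
generic segment from `x` to an interior point of the union avoids the intersections of the union with
the faces of codimension two, and it leaves the complement of the union at a facet point of some
image, against the hypothesis. So the ample cone is covered. The effective classes in the boundary
are covered because the Dirichlet domain for an interior point and a sum of generators is rational
polyhedral along the effective cone. In (3), the element has finite order, since it fixes an interior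
point and preserves the integral classes, and fixes a hyperplane, so that it is a reflection. -/
theorem Pool.Agent.Results.MP_20d318_ag.FacetCriterion.result
    {K : Type} [Field K] [Algebra ℂ K] {N n r : ℕ} {y : Fin (N + 1) → K} (hy : NormalModel y)
    (hn : Algebra.trdeg ℂ K = n) (hn0 : 0 < n)
    {c : Place ℂ K → Fin (r + 1) → ℤ} (hc : PicardBasis y c) (Δ : Place ℂ K → ℝ) :
    ((interior (nefCone y n c)).Nonempty ∧
      HasFundDomain {T | ∃ ψ, IsAut ψ y ∧ Preserves ψ y Δ ∧ IsPullBack y c ψ T}
        (nefCone y n c ∩ effCone y c) ↔
      ∃ 𝒬, ClosesUp {T | ∃ ψ, IsAut ψ y ∧ Preserves ψ y Δ ∧ IsPullBack y c ψ T}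
        (nefCone y n c) (nefCone y n c ∩ effCone y c) 𝒬) ∧
    ∀ Γ : Subgroup (K ≃ₐ[ℂ] K), (∀ φ ∈ Γ, IsAut φ y ∧ Preserves φ y Δ) →
      (∀ 𝒬, ClosesUp {T | ∃ ψ ∈ Γ, IsPullBack y c ψ T} (nefCone y n c)
          (nefCone y n c ∩ effCone y c) 𝒬 →
        nefCone y n c ∩ effCone y c =
          ⋃ T ∈ {T | ∃ ψ ∈ Γ, IsPullBack y c ψ T}, ⋃ S ∈ 𝒬, T '' cone S ∧
        ∃ R : Finset ((Fin (r + 1) → ℝ) ≃ₗ[ℝ] (Fin (r + 1) → ℝ)),
          ∀ T ∈ {T | ∃ ψ, IsAut ψ y ∧ Preserves ψ y Δ ∧ IsPullBack y c ψ T},
            ∃ T' ∈ {T | ∃ ψ ∈ Γ, IsPullBack y c ψ T}, ∃ t ∈ R, T = T' * t) ∧
      ∀ S, Mirrored {T | ∃ ψ ∈ Γ, IsPullBack y c ψ T} (nefCone y n c)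
          (nefCone y n c ∩ effCone y c) S →
        ClosesUp {T | ∃ ψ ∈ Γ, IsPullBack y c ψ T} (nefCone y n c)
          (nefCone y n c ∩ effCone y c) {S} :=
  main_nef hy hn hn0 hc Δ
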