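import Pool.Agent.V5helper91.MK.MovX

set_option autoImplicit false

/-!
# The relative nef cone conjecture for quotients of products `A × F`

`A = V / Λ` is an abelian variety and `F` any normal projective variety, `ℚ`-factorial with free class
group; `F` may be a K3 surface, a hyperkähler manifold or a Calabi–Yau manifold, and its nef cone need
not be polyhedral. Let `X = (A × F) / G`, where a finite group `G` acts diagonally; the action may have
fixed points and fixed divisors, and `G` may act nontrivially on `Cl(F)`. Let `X → Z` be a fibration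
given by a linear map `π : V → W`, where `Z = W / Γ'` is a quotient of an abelian variety, and let `Δ`
be an effective divisor on `X` with real coefficients such that `K_X + Δ` is numerically trivial over
`Z`. (Only the curves of `X` which come from curves `C × {point}` in `A × F` are needed for this
hypothesis.) The theorem reduces the nef cone conjecture for `(X/Z, Δ)` to the one for `F`: let `Q` be
a group of automorphisms of `F` which is normalised by `G`, such that the elements of `Q` which commute
with `G` preserve `Δ`, and such that only finitely many elements of `Q` act trivially on `Cl(F)`. If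
`A^e(F)` is covered by the translates of a rational polyhedral cone under `Q`, then the cone
`A^e(X/Z)` of nef and effective classes has a rational polyhedral fundamental domain for the action of
`Aut(X/Z, Δ)`. Moreover this cone is the convex hull of its rational classes, and its faces form
finitely many orbits.

For example, `Q` may be the group of all the automorphisms which preserve `Δ`; if `Δ` is the sum of the
image of a divisor `Δ'` of `F` and the branch divisor of `A × F → X`, then `Q` may be the group of all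
the automorphisms of `F` which preserve `Δ'`, which are not required to preserve the ramification
divisor of `G`. For `V = 0` the theorem says that the conjecture descends from `F` to the quotient
`F / G` by any finite group, with the branch divisor as boundary. If the nef cone of `F` is rational
polyhedral and spanned by semiample classes, the hypothesis holds for the trivial group `Q`.

`Cl`, `Grp`, `Elt`, `base`, `Induces`, `Scal`, `Semistable`, `SemiampleF`, `IsQuotient`, `Sheaf`,
`EffDiv`, `NumTrivial`, `N1`, `integral`, `effective`, `semiample`, `nefCone` and `effCone` are defined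
in `Pool.Agent.X324.CF.Defs`; `EffF`, `ClosF`, `IsSectionRing`, `actR`, `sat`, `IsPs`, `FixedBy`,
`PullBy`, `ConeF` and `ConeStatement` in `Pool.Agent.V5helper91.MK.Defs`; `IsTorusQuotient` in
`Pool.Agent.W594.SYZ.Defs2`; `IsPositiveForm` in `Pool.Agent.W594.SYZ.TQDefs`; `IsFibration` in
`Pool.Agent.TH735.AQ.Defs`; `AffGrp`, `LinGrp`, `Preserves` and `IsFundDomain` in
`Pool.Agent.Y167.Stm`; `IsFace` in `Pool.Agent.Y167.StmFace`.
-/

namespace Pool.Agent.Results.MP_20d318_ag.QuotientsOfProducts

open Pool.Agent.W594.SYZ2 Pool.Agent.TH735.AQ Pool.Agent.X324.CF Pool.Agent.V5helper91.MK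
open Pool.Agent.Y167 (AffGrp cone)
open Pool.Agent.Y167.CC (LinGrp Preserves)

section Defs

variable {V W E R : Type*} [NormedAddCommGroup V] [NormedSpace ℂ V]
  [NormedAddCommGroup W] [NormedSpace ℂ W] [NormedAddCommGroup E] [NormedSpace ℂ E]
  [CommRing R] [Algebra ℂ R] {ρ : ℕ}

/-- The cone `A^e(F)` of nef and effective classes of `F`. (The nef cone is the closure of the convex
cone spanned by the semiample classes.) -/
def NefEffF (𝒜 : Cl ρ → Submodule ℂ R) (u : Cl ρ) : Set (Fin ρ → ℝ) :=
  ClosF {β | SemiampleF 𝒜 u β} ∩ EffF 𝒜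

/-- The graded automorphism `ψ` of `R`, which gives a pseudo-automorphism of `F`, preserves the
semiample classes: it gives an automorphism of `F`. -/
def IsAutF (𝒜 : Cl ρ → Submodule ℂ R) (u : Cl ρ) (ψ : R ≃ₐ[ℂ] R) : Prop :=
  ∀ σ, Induces 𝒜 ψ σ → ∀ β, SemiampleF 𝒜 u β ↔ SemiampleF 𝒜 u (σ β)

/-- The cone `A^e(X/Z)` of nef and effective classes. -/
def nefEff (𝒜 : Cl ρ → Submodule ℂ R) (u : Cl ρ) (Γ : Grp V R) (j : E →ₗ[ℂ] V) :
    Set (N1 𝒜 Γ j) := nefCone 𝒜 Γ j u ∩ effCone 𝒜 Γ j

/-- The automorphism of `X` given by the pair `g = (f, ψ)` is an automorphism over `Z = W / Γ'`. -/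
def Over (Γ' : AffGrp W) (π : V →ₗ[ℂ] W) (g : Elt V R) : Prop :=
  ∃ δ ∈ Γ', ∀ v, π (g.1 v) = δ (π v)

/-- `𝒢` is a group of linear automorphisms of `N^1(X/Z)` which preserves the integral classes and the
cone of nef and effective classes, and which contains the pullbacks by all automorphisms of `X` over
`Z` which are given by pairs `(f, ψ)` and map `Δ` to itself. The image of `Aut(X/Z, Δ)` has these
properties. -/
structure IsAutGroup {𝒜 : Cl ρ → Submodule ℂ R} (u : Cl ρ) {Γ : Grp V R} (Γ' : AffGrp W)
    (π : V →ₗ[ℂ] W) {j : E →ₗ[ℂ] V} {ι : Type*} [Fintype ι] (Δ : EffDiv 𝒜 Γ ι)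
    (𝒢 : LinGrp (N1 𝒜 Γ j)) : Prop where
  int : Preserves 𝒢 (integral 𝒜 Γ j)
  nef_eff : Preserves 𝒢 (nefEff 𝒜 u Γ j)
  pair : ∀ g : Elt V R, IsPs 𝒜 Γ g → IsAutF 𝒜 u g.2 → Over Γ' π g → FixedBy Δ g →
    ∀ G, PullBy g G → G ∈ 𝒢

end Defs

/-- Let `F` be a variety with the ring of sections `R = ⨁ 𝒜 β` and ample class `u`. Let
`X = (V × F) / Γ` be a projective quotient, `X → Z = W / Γ'` a fibration and `Δ` an effective divisor
with real coefficients on `X` such that `K_X + Δ` is numerically trivial over `Z`. Here `E` is the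
kernel of `π`, embedded by `j`. If the covering statement of the nef cone conjecture holds for `F` and
the group `Q` of automorphisms of `F`, then the cone conjecture holds for the action of `𝒢` on the
effective nef cone `A^e(X/Z)`. -/
theorem result {V W E R : Type*} [NormedAddCommGroup V] [NormedSpace ℂ V] [FiniteDimensional ℂ V]
    [NormedAddCommGroup W] [NormedSpace ℂ W] [FiniteDimensional ℂ W]
    [NormedAddCommGroup E] [NormedSpace ℂ E] [FiniteDimensional ℂ E]
    [CommRing R] [IsDomain R] [Algebra ℂ R] {ρ : ℕ}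
    (𝒜 : Cl ρ → Submodule ℂ R) [GradedAlgebra 𝒜] (u : Cl ρ) (hR : IsSectionRing 𝒜 u)
    (Γ : Grp V R) (hX : IsQuotient 𝒜 u Γ)
    (hproj : ∃ (L : Sheaf 𝒜 Γ) (H : V → V → ℂ), L.IsChern H ∧ IsPositiveForm H)
    (Γ' : AffGrp W) (π : V →ₗ[ℂ] W) (hπ : IsFibration (base Γ) Γ' π)
    (j : E →ₗ[ℂ] V) (hj : Function.Injective j) (hjr : LinearMap.range j = LinearMap.ker π)
    {ι : Type*} [Fintype ι] (Δ : EffDiv 𝒜 Γ ι) (hΔ : NumTrivial Δ j)
    (Q : Subgroup (R ≃ₐ[ℂ] R)) (hQ : ∀ ψ ∈ Q, IsAutF 𝒜 u ψ) (hF : ConeF (NefEffF 𝒜 u) Δ Q)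
    (𝒢 : LinGrp (N1 𝒜 Γ j)) (h𝒢 : IsAutGroup u Γ' π Δ 𝒢) :
    ConeStatement 𝒢 (nefEff 𝒜 u Γ j) (nefCone 𝒜 Γ j u) (integral 𝒜 Γ j) := by
  obtain ⟨H₀, Rl⟩ := rel_emb hX hproj hπ hj hjr
  have hF' : ConeQ {β | SemiampleF 𝒜 u β} Δ Q :=
    { graded := fun ψ hψ => by
        obtain ⟨σ, h1⟩ := hF.graded ψ hψ
        exact ⟨σ, h1, hQ ψ hψ σ h1⟩
      fixed := hF.fixed
      norm := hF.norm
      ker := hF.ker
      cover := by
        obtain ⟨S, hS, h⟩ := hF.cover
        refine ⟨S, hS, fun b hb => ?_⟩
        obtain ⟨ψ, hψ, σ, h1, h3⟩ := h b hb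
        rw [actR_eq] at h3
        exact ⟨ψ, hψ, σ, h1, h3⟩ }
  exact statement hR.gf hR.base hX Rl (hR.goodX hX) Δ hΔ hF' 𝒢 h𝒢.int h𝒢.nef_eff
    fun g hg hg' hv hg2 G hG => h𝒢.pair g hg (fun σ hσ β => Gr.map_iff hR.base hg' hσ β)
      ⟨1, Γ'.one_mem, fun v => by
      obtain ⟨e, he⟩ := hv v
      have h5 : π (j e) = 0 := by
        have h6 : j e ∈ LinearMap.ker π := hjr ▸ LinearMap.mem_range_self j e
        exact h6
      rw [he, map_add, h5, add_zero]
      rfl⟩ hg2 G fun x => ⟨(hG x).1, fun σ hσ => by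
        rw [actR_eq]
        exact (hG x).2 σ hσ⟩

end Pool.Agent.Results.MP_20d318_ag.QuotientsOfProducts
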